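import Pool.Agent.H26.TR.Full
import Pool.Agent.H98.Code.Minor

set_option autoImplicit false

/-!
Covered state lemma (MP_a46c6f_co, full Q1): from the sides of the words of a code, the words of a
covered state at `e` which are `0` at `e` split.
-/

namespace Pool.Agent.H55.Q

open Pool.Agent.H98.Code Pool.Agent.H26.TR

section
variable {V : Type} [Fintype V] [DecidableEq V]

lemma k_add_cases {a b s : K} (ha : a = 0 ∨ a = s) (hb : b = 0 ∨ b = s) : a + b = 0 ∨ a + b = s := by
  rcases ha with rfl | rfl <;> rcases hb with rfl | rfl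
  · left; simp
  · right; simp
  · right; simp
  · left; exact k_add_self _

lemma k_add_add (a b : K) : a + b + b = a := by rw [add_assoc, k_add_self, add_zero]

/-- the value of a half of a splitting off the splitting point -/
lemma half_val {u c₁ c₂ : V → K} {g : V} (hs : c₁ + c₂ = u) (hd : ∀ v, v ≠ g → c₁ v = 0 ∨ c₂ v = 0)
    (v : V) (hv : v ≠ g) : c₁ v = 0 ∨ c₁ v = u v := by
  rcases hd v hv with h | h
  · exact Or.inl h
  · right
    rw [← hs, Pi.add_apply, h, add_zero]

/-- **covered state lemma** -/
theorem split_of_sides {L : Submodule (ZMod 2) (V → K)} {e : V} {D : V → K}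
    (hiso : ∀ u ∈ L, ∀ w ∈ L, form u w = 0) (letter : ∀ v, v ≠ e → (D v).1 = 1)
    (full : ∀ v, v ≠ e → ∃ u, KD L D e u ∧ u v ≠ 0) (S : (V → K) → Finset V → Prop)
    (root : ∀ u Y, S u Y → e ∉ Y) (zero : ∀ u Y, S u Y → ∀ v ∈ Y, u v = 0)
    (ex : ∀ u ∈ L, ZFree u → u e = 0 → ∃ Y, S u Y)
    (part : ∀ u Y, S u Y → ZFree u → ∀ k ∈ L, (∀ v, u v ≠ 0 → k v = 0 ∨ k v = u v) →
      ∃ k' ∈ L, (∀ v ∈ Y, k' v = k v) ∧ (∀ v, u v = 0 → v ∉ Y → k' v = 0) ∧
        (∀ v, u v ≠ 0 → k' v = 0 ∨ k' v = u v) ∧ (ZFree k' → ∃ Y', Y' ⊆ Y ∧ S k' Y'))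
    (wc : ∀ u ∈ L, u ≠ 0 → ZFree u → u e = 0 → S u ∅ → ∃ g, Splits L u g) :
    ∀ u, KD L D e u → u ≠ 0 → u e = 0 → ∃ g, Splits L u g := by
  have zfree : ∀ u, KD L D e u → u e = 0 → ZFree u := by
    intro u hu hue v hv1
    by_cases hv : v = e
    · rw [hv, hue] at hv1
      exact absurd hv1 (by decide)
    · rcases hu.2.1 v hv with h1 | h1
      · rw [h1] at hv1
        exact absurd hv1 (by decide)
      · have := letter v hv
        rw [← h1, hv1] at this
        exact absurd this (by decide)
  have Dne : ∀ v, v ≠ e → D v ≠ 0 := by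
    intro v hv h0
    have := letter v hv
    rw [h0] at this
    exact absurd this (by decide)
  -- a splitting of such a word is at `e`
  have at_e : ∀ u, KD L D e u → u e = 0 → ∀ g, Splits L u g → g = e := by
    rintro u hu hue g ⟨c₁, hc₁, c₂, hc₂, hsum, hg1, hg2, hd⟩
    by_contra hne
    obtain ⟨k, hk, hkg⟩ := full g hne
    have hkD : k g = D g := by
      rcases hk.2.1 g hne with h1 | h1
      · exact absurd h1 hkg
      · exact h1
    have hform := hiso c₁ hc₁ k hk.1
    have hone : ∑ v, kf (c₁ v) (k v) = kf (c₁ g) (k g) := by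
      apply Finset.sum_eq_single g
      · intro v _ hv
        have hv1 := half_val hsum hd v hv
        by_cases hve : v = e
        · have : c₁ v = 0 := by
            rcases hv1 with h1 | h1
            · exact h1
            · rw [h1, hve, hue]
          rw [this]; simp [kf]
        · have h1 : c₁ v = 0 ∨ c₁ v = D v := by
            rcases hv1 with h1 | h1
            · exact Or.inl h1
            · rcases hu.2.1 v hve with h2 | h2
              · left; rw [h1, h2]
              · right; rw [h1, h2]
          rcases h1 with h1 | h1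
          · rw [h1]; simp [kf]
          · rcases hk.2.1 v hve with h2 | h2
            · rw [h2]; simp [kf]
            · rw [h1, h2]; exact kf_self _
      · intro hg'
        exact absurd (Finset.mem_univ g) hg'
    unfold form at hform
    rw [hone, hg1, hkD] at hform
    have hl := letter g hne
    rw [kf_z_left, hl] at hform
    exact absurd hform (by decide)
  have main : ∀ N : ℕ, ∀ u Y, S u Y → Y.card ≤ N → KD L D e u → u ≠ 0 → u e = 0 →
      ∃ g, Splits L u g := by
    intro N
    induction N with
    | zero =>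
      intro u Y hS hcard hu hu0 hue
      have hY : Y = ∅ := Finset.card_eq_zero.1 (Nat.le_zero.1 hcard)
      exact wc u hu.1 hu0 (zfree u hu hue) hue (hY ▸ hS)
    | succ N ih =>
      intro u Y hS hcard hu hu0 hue
      by_cases hY : Y = ∅
      · exact wc u hu.1 hu0 (zfree u hu hue) hue (hY ▸ hS)
      obtain ⟨v, hvY⟩ := Finset.nonempty_iff_ne_empty.2 hY
      have hve : v ≠ e := fun h => root u Y hS (h ▸ hvY)
      obtain ⟨c, hc, hcv⟩ := full v hve
      have hle : ∀ x, KD L D e x → ∀ w, u w ≠ 0 → x w = 0 ∨ x w = u w := by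
        intro x hx w hw
        have hwe : w ≠ e := fun h => hw (h ▸ hue)
        rcases hx.2.1 w hwe with h | h
        · exact Or.inl h
        · rcases hu.2.1 w hwe with h' | h'
          · exact absurd h' hw
          · right; rw [h, h']
      obtain ⟨k, hk, hk1, hk2, hk3, hk4⟩ := part u Y hS (zfree u hu hue) c hc.1 (hle c hc)
      have hke : k e = 0 := hk2 e hue (root u Y hS)
      have hkD : KD L D e k := by
        refine ⟨hk, ?_, Or.inl hke⟩
        intro w hw
        by_cases huw : u w = 0
        · by_cases hwY : w ∈ Y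
          · rw [hk1 w hwY]; exact hc.2.1 w hw
          · exact Or.inl (hk2 w huw hwY)
        · rcases hk3 w huw with h | h
          · exact Or.inl h
          · rcases hu.2.1 w hw with h' | h'
            · exact absurd h' huw
            · right; rw [h, h']
      have hkv : k v ≠ 0 := by rw [hk1 v hvY]; exact hcv
      have hk0 : k ≠ 0 := fun h => hkv (by rw [h]; rfl)
      obtain ⟨Y', hY', hSk⟩ := hk4 (zfree k hkD hke)
      have hvY' : v ∉ Y' := fun h => hkv (zero k Y' hSk v h)
      have hlt : Y'.card < Y.card :=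
        Finset.card_lt_card ⟨hY', fun h => hvY' (h hvY)⟩
      obtain ⟨g, hg⟩ := ih k Y' hSk (by omega) hkD hk0 hke
      have hge : g = e := at_e k hkD hke g hg
      subst hge
      obtain ⟨c₁, hc₁, c₂, hc₂, hsum, hg1, hg2, hd⟩ := hg
      have hc1le : ∀ w, u w ≠ 0 → c₁ w = 0 ∨ c₁ w = u w := by
        intro w hw
        have hwe : w ≠ g := fun h => hw (h ▸ hue)
        rcases half_val hsum hd w hwe with h | h
        · exact Or.inl h
        · rcases hk3 w hw with h' | h'
          · left; rw [h, h']
          · right; rw [h, h']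
      obtain ⟨d, hd', hd1, hd2, hd3, -⟩ := part u Y hS (zfree u hu hue) c₁ hc₁ hc1le
      refine ⟨g, c₁ + d, L.add_mem hc₁ hd', c₁ + d + u, L.add_mem (L.add_mem hc₁ hd') hu.1, ?_, ?_, ?_, ?_⟩
      · rw [← add_assoc, w_add_self, zero_add]
      · rw [Pi.add_apply, hg1, hd2 g hue (root u Y hS), add_zero]
      · rw [Pi.add_apply, Pi.add_apply, hg1, hd2 g hue (root u Y hS), hue, add_zero, add_zero]
      · intro w hw
        by_cases huw : u w = 0
        · left
          by_cases hwY : w ∈ Y
          · rw [Pi.add_apply, hd1 w hwY]; exact k_add_self _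
          · rw [Pi.add_apply, hd2 w huw hwY, add_zero]
            rcases half_val hsum hd w hw with h | h
            · exact h
            · rw [h]; exact hk2 w huw hwY
        · rcases k_add_cases (hc1le w huw) (hd3 w huw) with h | h
          · exact Or.inl h
          · right
            rw [Pi.add_apply (c₁ + d) u w, Pi.add_apply c₁ d w, h]
            exact k_add_self _
  intro u hu hu0 hue
  obtain ⟨Y, hY⟩ := ex u hu.1 (zfree u hu hue) hue
  exact main Y.card u Y hY le_rfl hu hu0 hue

end

end Pool.Agent.H55.Q
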