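import Pool.Agent.H55.Q.KD
import Pool.Agent.H31.Q.Defs

set_option autoImplicit false

/-!
The words of a covered state split (MP_a46c6f_co, full Q1), from the sides of the words.
-/

namespace Pool.Agent.H55.Q

open Pool.Agent.H98.Code Pool.Agent.H26.TR

variable {V : Type} [Fintype V] [DecidableEq V]

/-- the words of every covered state at `e` which are `0` at `e` split -/
theorem cov_of_sides {L : Submodule (ZMod 2) (V → K)} {S : (V → K) → Finset V → Prop}
    (hL : IsCode L) (hS : Pool.Agent.H31.Q.Sides L S) (e : V) (D' : V → K)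
    (letter : ∀ v, v ≠ e → (D' v).1 = 1) (full : ∀ v, v ≠ e → ∃ u, KD L D' e u ∧ u v ≠ 0) :
    ∀ u, KD L D' e u → u ≠ 0 → u e = 0 → ∃ g, Splits L u g := by
  refine split_of_sides hL.iso letter full (fun u Y => S u Y ∧ e ∉ Y) (fun u Y h => h.2)
    (fun u Y h => (hS.mem u Y h.1).2) ?_ ?_ ?_
  · intro u hu _ hue
    obtain ⟨Y, hY⟩ := hS.ex u hu
    by_cases he : e ∈ Y
    · obtain ⟨Y', hY', h⟩ := hS.compl u Y hY
      exact ⟨Y', hY', fun h' => ((h e).1 h').2 he⟩
    · exact ⟨Y, hY, he⟩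
  · intro u Y h _ k hk hle
    obtain ⟨k', hk', h1, h2, h3, ⟨Y', hY', hS'⟩, -⟩ := hS.part u Y h.1 k hk hle
    exact ⟨k', hk', h1, h2, h3, fun _ => ⟨Y', hY', hS', fun h' => h.2 (hY' h')⟩⟩
  · intro u _ hu0 hz _ h
    exact hS.wc u h.1 hz hu0

/-- a word without a zero off one place splits -/
theorem wc_of_sides {L : Submodule (ZMod 2) (V → K)} {S : (V → K) → Finset V → Prop}
    (hS : Pool.Agent.H31.Q.Sides L S) :
    ∀ u ∈ L, u ≠ 0 → ZFree u → (∃ e : V, ∀ v, v ≠ e → u v ≠ 0) → ∃ g, Splits L u g := by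
  rintro u hu hu0 hz ⟨e, he⟩
  obtain ⟨Y, hY⟩ := hS.ex u hu
  by_cases h : Y = ∅
  · exact hS.wc u (h ▸ hY) hz hu0
  · obtain ⟨Y', hY', h'⟩ := hS.compl u Y hY
    obtain ⟨v, hv⟩ := Finset.nonempty_iff_ne_empty.2 h
    have key : ∀ w, w ∈ Y → w = e := by
      intro w hw
      by_contra hne
      exact he w hne ((hS.mem u Y hY).2 w hw)
    have hY0 : Y' = ∅ := by
      rw [Finset.eq_empty_iff_forall_notMem]
      intro w hw
      obtain ⟨h1, h2⟩ := (h' w).1 hw
      by_cases hwe : w = e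
      · exact h2 (hwe ▸ (key v hv) ▸ hv)
      · exact he w hwe h1
    exact hS.wc u (hY0 ▸ hY') hz hu0

end Pool.Agent.H55.Q
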